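import Pool.Agent.Helper42.KS.Goals

set_option autoImplicit false

namespace Pool.Agent.Helper42.KS.PkMAJ

open MeasureTheory

lemma ee_add (s t : ℝ) : ee (s + t) = ee s * ee t := by
  unfold ee
  rw [← Complex.exp_add]; congr 1; push_cast; ring

lemma ee_zero : ee 0 = 1 := by simp [ee]

lemma norm_ee (t : ℝ) : ‖ee t‖ = 1 := by
  unfold ee; exact Complex.norm_exp_ofReal_mul_I _

lemma continuous_ee : Continuous ee := by
  unfold ee; fun_prop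

lemma ee_int (m : ℤ) : ee m = 1 := by
  unfold ee
  rw [← Complex.exp_int_mul_two_pi_mul_I m]; congr 1; push_cast; ring

lemma ee_sum {ι : Type*} (s : Finset ι) (f : ι → ℝ) : ee (∑ i ∈ s, f i) = ∏ i ∈ s, ee (f i) := by
  classical
  induction s using Finset.induction_on with
  | empty => simp [ee_zero]
  | insert i s hi ih => rw [Finset.sum_insert hi, Finset.prod_insert hi, ee_add, ih]

lemma integral_ee (m : ℤ) (hm : m ≠ 0) (t : ℝ) : ∫ α in t..(1 + t), ee (m * α) = 0 := by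
  have h1 : ∀ α : ℝ, ee (m * α) = Complex.exp ((2 * Real.pi * m * Complex.I) * α) := by
    intro α; unfold ee; congr 1; push_cast; ring
  simp_rw [h1]
  have hc : (2 * Real.pi * m * Complex.I : ℂ) ≠ 0 := by
    simp [hm, Real.pi_ne_zero]
  rw [integral_exp_mul_complex hc]
  have h2 : Complex.exp (2 * Real.pi * m * Complex.I * ((1 + t : ℝ) : ℂ)) =
      Complex.exp (2 * Real.pi * m * Complex.I * (t : ℂ)) := by
    have : (2 * Real.pi * m * Complex.I * ((1 + t : ℝ) : ℂ)) =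
        (2 * Real.pi * m * Complex.I * (t : ℂ)) + m * (2 * Real.pi * Complex.I) := by
      push_cast; ring
    rw [this, Complex.exp_add, Complex.exp_int_mul_two_pi_mul_I, mul_one]
  rw [h2, sub_self, zero_div]

/-- integrand -/
noncomputable def FF (k d R n : ℕ) (α : ℝ) : ℂ := ee (-((n : ℝ) * α)) * (fS k R α 0) ^ d

lemma continuous_fS (k R : ℕ) : Continuous (fun α => fS k R α 0) := by
  unfold fS
  refine continuous_finsetSum _ fun i _ => continuous_ee.comp (by fun_prop)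

lemma continuous_FF (k d R n : ℕ) : Continuous (FF k d R n) := by
  unfold FF
  exact (continuous_ee.comp (by fun_prop)).mul ((continuous_fS k R).pow d)

lemma norm_fS_le (k R : ℕ) (α : ℝ) : ‖fS k R α 0‖ ≤ R := by
  unfold fS
  refine (norm_sum_le _ _).trans ?_
  simp [norm_ee]

lemma norm_VV_le (k : ℕ) (B : ℝ) : ‖VV k B 0‖ ≤ 1 := by
  unfold VV
  refine (intervalIntegral.norm_integral_le_of_norm_le_const (C := 1) ?_).trans ?_
  · intro x _; rw [norm_ee]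
  · simp

lemma FF_expand (k d R n : ℕ) (α : ℝ) :
    FF k d R n α = ∑ y ∈ Fintype.piFinset (fun _ : Fin d => Finset.range R),
      ee (((∑ i, (y i) ^ k : ℕ) - (n : ℤ) : ℤ) * α) := by
  unfold FF fS
  have h1 : (∑ y ∈ Finset.range R, ee (α * (y : ℝ) ^ k + 0 * y)) ^ d =
      ∏ _i : Fin d, ∑ y ∈ Finset.range R, ee (α * (y : ℝ) ^ k + 0 * y) := by
    rw [Finset.prod_const, Finset.card_univ, Fintype.card_fin]
  rw [h1, Finset.prod_univ_sum, Finset.mul_sum]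
  refine Finset.sum_congr rfl fun y _ => ?_
  rw [← ee_sum, ← ee_add]
  congr 1
  push_cast
  simp only [zero_mul, add_zero]
  rw [← Finset.mul_sum]; ring

lemma card_orth (k d R n : ℕ) (hk : 1 ≤ k) (hn : n < R ^ k) :
    (orth k d n).card = ((Fintype.piFinset (fun _ : Fin d => Finset.range R)).filter
      (fun y => ∑ i, (y i) ^ k = n)).card := by
  symm
  refine Finset.card_bij (fun y _ => fun i => (y i : ℤ)) ?_ ?_ ?_
  · intro y hy
    rw [Finset.mem_filter, Fintype.mem_piFinset] at hy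
    unfold orth
    rw [Finset.mem_filter, Fintype.mem_piFinset]
    refine ⟨fun i => ?_, ?_⟩
    · rw [Finset.mem_Icc]
      refine ⟨by positivity, ?_⟩
      have h1 : y i ≤ y i ^ k := Nat.le_self_pow (by omega) _
      have h2 : y i ^ k ≤ ∑ i, y i ^ k :=
        Finset.single_le_sum (f := fun i => y i ^ k) (fun _ _ => Nat.zero_le _) (Finset.mem_univ i)
      have : y i ≤ n := by omega
      exact_mod_cast this
    · have := hy.2
      change ∑ i, ((y i : ℕ) : ℤ) ^ k = (n : ℤ)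
      exact_mod_cast this
  · intro y _ z _ h
    funext i
    have := congrFun h i
    exact_mod_cast this
  · intro z hz
    unfold orth at hz
    rw [Finset.mem_filter, Fintype.mem_piFinset] at hz
    have h0 : ∀ i, 0 ≤ z i := fun i => (Finset.mem_Icc.1 (hz.1 i)).1
    have hcast : ∀ i, (((z i).toNat : ℕ) : ℤ) = z i := fun i => Int.toNat_of_nonneg (h0 i)
    have hs : ∑ i, ((z i).toNat) ^ k = n := by
      have : ((∑ i, ((z i).toNat) ^ k : ℕ) : ℤ) = (n : ℤ) := by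
        rw [← hz.2, Nat.cast_sum]
        refine Finset.sum_congr rfl fun i _ => ?_
        rw [Nat.cast_pow, hcast]
      exact_mod_cast this
    refine ⟨fun i => (z i).toNat, ?_, ?_⟩
    · rw [Finset.mem_filter, Fintype.mem_piFinset]
      refine ⟨fun i => ?_, hs⟩
      rw [Finset.mem_range]
      have h2 : (z i).toNat ^ k ≤ ∑ i, (z i).toNat ^ k :=
        Finset.single_le_sum (f := fun i => (z i).toNat ^ k) (fun _ _ => Nat.zero_le _)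
          (Finset.mem_univ i)
      have h3 : (z i).toNat ^ k < R ^ k := by omega
      exact lt_of_pow_lt_pow_left₀ k (Nat.zero_le _) h3
    · funext i
      exact hcast i

lemma orthog (k d R n : ℕ) (hk : 1 ≤ k) (hn : n < R ^ k) (t : ℝ) :
    ((orth k d n).card : ℂ) = ∫ α in t..(1 + t), FF k d R n α := by
  rw [card_orth k d R n hk hn]
  simp_rw [FF_expand]
  rw [intervalIntegral.integral_finsetSum]
  · rw [Finset.card_filter, Nat.cast_sum]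
    refine Finset.sum_congr rfl fun y _ => ?_
    by_cases h : ∑ i, (y i) ^ k = n
    · rw [if_pos h, h]
      simp [ee_zero]
    · rw [if_neg h]
      have hm : ((∑ i, (y i) ^ k : ℕ) - (n : ℤ) : ℤ) ≠ 0 := by
        intro h'
        exact h (by exact_mod_cast sub_eq_zero.1 h')
      rw [Nat.cast_zero]
      exact (integral_ee _ hm t).symm
  · intro y _
    exact (continuous_ee.comp (by fun_prop)).intervalIntegrable _ _

/-- major arc -/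
def Mj (ρ : ℝ) (p : Σ _ : ℕ, ℕ) : Set ℝ := Set.Icc ((p.2 : ℝ) / p.1 - ρ) ((p.2 : ℝ) / p.1 + ρ)

/-- the pairs `(q, a)` -/
def PP (Q : ℕ) : Finset (Σ _ : ℕ, ℕ) :=
  (Finset.Icc 1 Q).sigma (fun q => (Finset.Icc 1 q).filter (fun a => Nat.Coprime a q))

lemma mem_PP (Q : ℕ) (p : Σ _ : ℕ, ℕ) :
    p ∈ PP Q ↔ (1 ≤ p.1 ∧ p.1 ≤ Q) ∧ (1 ≤ p.2 ∧ p.2 ≤ p.1) ∧ Nat.Coprime p.2 p.1 := by
  unfold PP
  rw [Finset.mem_sigma, Finset.mem_Icc, Finset.mem_filter, Finset.mem_Icc]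

lemma mem_Mj (ρ : ℝ) (p : Σ _ : ℕ, ℕ) (α : ℝ) : α ∈ Mj ρ p ↔ |α - (p.2 : ℝ) / p.1| ≤ ρ := by
  unfold Mj
  rw [Set.mem_Icc, abs_le]
  constructor <;> rintro ⟨h1, h2⟩ <;> constructor <;> linarith

/-- difference of `d`-th powers -/
lemma pow_sub_le {u v : ℂ} {M δ : ℝ} (d : ℕ) (hu : ‖u‖ ≤ M) (hv : ‖v‖ ≤ M) (huv : ‖u - v‖ ≤ δ) :
    ‖u ^ d - v ^ d‖ ≤ d * M ^ (d - 1) * δ := by
  have hM : 0 ≤ M := (norm_nonneg _).trans hu
  rw [← Commute.geom_sum₂_mul (Commute.all u v)]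
  rw [norm_mul]
  refine mul_le_mul ?_ huv (norm_nonneg _) (by positivity)
  refine (norm_sum_le _ _).trans ?_
  have : ∀ i ∈ Finset.range d, ‖u ^ i * v ^ (d - 1 - i)‖ ≤ M ^ (d - 1) := by
    intro i hi
    rw [Finset.mem_range] at hi
    rw [norm_mul, norm_pow, norm_pow]
    calc ‖u‖ ^ i * ‖v‖ ^ (d - 1 - i) ≤ M ^ i * M ^ (d - 1 - i) := by gcongr
      _ = M ^ (d - 1) := by rw [← pow_add]; congr 1; omega
  refine (Finset.sum_le_sum this).trans ?_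
  simp

lemma measurableSet_Mj (ρ : ℝ) (p : Σ _ : ℕ, ℕ) : MeasurableSet (Mj ρ p) := measurableSet_Icc

section params

variable {k R : ℕ} (hk : 3 ≤ k) (hR : 2 ≤ R)

include hk hR

lemma rho_lt : 2 * (R : ℝ) ^ (-(k : ℝ) + 1 / 16) < (R : ℝ) ^ (-(1 / 8) : ℝ) := by
  have hR2 : (2 : ℝ) ≤ R := by exact_mod_cast hR
  have hR0 : (0 : ℝ) < R := by linarith
  have hk3 : (3 : ℝ) ≤ k := by exact_mod_cast hk
  have h1 : (R : ℝ) ^ (-(1 / 8) : ℝ) = (R : ℝ) ^ (-(k : ℝ) + 1 / 16) * (R : ℝ) ^ ((k : ℝ) - 3 / 16) := by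
    rw [← Real.rpow_add hR0]; congr 1; ring
  rw [h1, mul_comm]
  refine mul_lt_mul_of_pos_left ?_ (by positivity)
  calc (2 : ℝ) < 2 ^ (2 : ℝ) := by norm_num
    _ ≤ (R : ℝ) ^ (2 : ℝ) := Real.rpow_le_rpow (by norm_num) hR2 (by norm_num)
    _ ≤ (R : ℝ) ^ ((k : ℝ) - 3 / 16) := Real.rpow_le_rpow_of_exponent_le (by linarith) (by linarith)

lemma inv_ge {q : ℕ} (hq : 1 ≤ q) (hqR : (q : ℝ) ≤ (R : ℝ) ^ (1 / 16 : ℝ)) {q' : ℕ} (hq' : 1 ≤ q')
    (hqR' : (q' : ℝ) ≤ (R : ℝ) ^ (1 / 16 : ℝ)) :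
    2 * (R : ℝ) ^ (-(k : ℝ) + 1 / 16) < 1 / ((q : ℝ) * q') := by
  have hR2 : (2 : ℝ) ≤ R := by exact_mod_cast hR
  have hR0 : (0 : ℝ) < R := by linarith
  have hq0 : (0 : ℝ) < q := by exact_mod_cast hq
  have hq0' : (0 : ℝ) < q' := by exact_mod_cast hq'
  refine (rho_lt hk hR).trans_le ?_
  rw [Real.rpow_neg hR0.le, ← one_div]
  refine one_div_le_one_div_of_le (by positivity) ?_
  calc (q : ℝ) * q' ≤ (R : ℝ) ^ (1 / 16 : ℝ) * (R : ℝ) ^ (1 / 16 : ℝ) :=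
        mul_le_mul hqR hqR' hq0'.le (by positivity)
    _ = (R : ℝ) ^ (1 / 8 : ℝ) := by rw [← Real.rpow_add hR0]; norm_num

lemma inv_ge1 {q : ℕ} (hq : 1 ≤ q) (hqR : (q : ℝ) ≤ (R : ℝ) ^ (1 / 16 : ℝ)) :
    2 * (R : ℝ) ^ (-(k : ℝ) + 1 / 16) < 1 / (q : ℝ) := by
  have h := inv_ge hk hR hq hqR (q' := 1) le_rfl (by
    have hR2 : (2 : ℝ) ≤ R := by exact_mod_cast hR
    push_cast
    exact Real.one_le_rpow (by linarith) (by norm_num))
  simpa using h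

lemma mnr_eq : mnr k R = Set.Ioc ((R : ℝ) ^ (-(k : ℝ) + 1 / 16)) (1 + (R : ℝ) ^ (-(k : ℝ) + 1 / 16)) \
    ⋃ p ∈ PP ⌊(R : ℝ) ^ (1 / 16 : ℝ)⌋₊, Mj ((R : ℝ) ^ (-(k : ℝ) + 1 / 16)) p := by
  have hR2 : (2 : ℝ) ≤ R := by exact_mod_cast hR
  have hR0 : (0 : ℝ) < R := by linarith
  have hT : (0 : ℝ) ≤ (R : ℝ) ^ (1 / 16 : ℝ) := by positivity
  set ρ := (R : ℝ) ^ (-(k : ℝ) + 1 / 16) with hρ
  ext α
  unfold mnr
  simp only [Set.mem_ofPred_eq, Set.mem_sdiff, Set.mem_Ioc, Set.mem_iUnion, not_exists]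
  rw [← hρ]
  constructor
  · rintro ⟨h1, h2, h3⟩
    refine ⟨⟨h1, h2⟩, ?_⟩
    intro p hp hα
    rw [mem_PP] at hp
    rw [mem_Mj] at hα
    have h4 := h3 p.1 hp.1.1 ((Nat.le_floor_iff hT).1 hp.1.2) (p.2 : ℤ)
    push_cast at h4
    linarith
  · rintro ⟨⟨h1, h2⟩, h3⟩
    refine ⟨h1, h2, ?_⟩
    intro q hq hqR a
    by_contra hcon
    push Not at hcon
    have hq0 : (0 : ℝ) < q := by exact_mod_cast hq
    have hinv := inv_ge1 hk hR hq hqR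
    rw [← hρ] at hinv
    rw [abs_le] at hcon
    -- a ≥ 1
    have ha1 : 1 ≤ a := by
      by_contra hh
      have ha0 : a ≤ 0 := by omega
      have : (a : ℝ) / q ≤ 0 := div_nonpos_of_nonpos_of_nonneg (by exact_mod_cast ha0) hq0.le
      linarith
    have haq : a ≤ q := by
      by_contra hh
      have ha0 : (q : ℤ) + 1 ≤ a := by omega
      have ha0' : (q : ℝ) + 1 ≤ a := by exact_mod_cast ha0
      have : (q + 1 : ℝ) / q ≤ (a : ℝ) / q := by gcongr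
      have h5 : (q + 1 : ℝ) / q = 1 + 1 / q := by field_simp
      linarith
    obtain ⟨m, rfl⟩ : ∃ m : ℕ, a = m := ⟨a.toNat, by omega⟩
    have hm1 : 1 ≤ m := by exact_mod_cast ha1
    have hmq : m ≤ q := by exact_mod_cast haq
    set g := Nat.gcd m q with hg
    have hgpos : 0 < g := Nat.gcd_pos_of_pos_left _ hm1
    have hgm : g ∣ m := Nat.gcd_dvd_left _ _
    have hgq : g ∣ q := Nat.gcd_dvd_right _ _
    have hq'pos : 0 < q / g := Nat.div_pos (Nat.le_of_dvd hq hgq) hgpos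
    have hm'pos : 0 < m / g := Nat.div_pos (Nat.le_of_dvd hm1 hgm) hgpos
    refine h3 ⟨q / g, m / g⟩ ?_ ?_
    · rw [mem_PP]
      refine ⟨⟨hq'pos, ?_⟩, ⟨hm'pos, Nat.div_le_div_right hmq⟩, Nat.coprime_div_gcd_div_gcd hgpos⟩
      refine (Nat.div_le_self _ _).trans ((Nat.le_floor_iff hT).2 hqR)
    · rw [mem_Mj]
      have hgR : (g : ℝ) ≠ 0 := by exact_mod_cast hgpos.ne'
      have hfr : (((m / g : ℕ) : ℝ)) / ((q / g : ℕ) : ℝ) = (m : ℝ) / q := by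
        rw [Nat.cast_div hgm hgR, Nat.cast_div hgq hgR]
        field_simp
      change |α - (((m / g : ℕ) : ℝ)) / ((q / g : ℕ) : ℝ)| ≤ ρ
      rw [hfr, abs_le]
      push_cast at hcon
      exact hcon

lemma Mj_sub (p : Σ _ : ℕ, ℕ) (hp : p ∈ PP ⌊(R : ℝ) ^ (1 / 16 : ℝ)⌋₊) :
    Mj ((R : ℝ) ^ (-(k : ℝ) + 1 / 16)) p ⊆
      Set.Ioc ((R : ℝ) ^ (-(k : ℝ) + 1 / 16)) (1 + (R : ℝ) ^ (-(k : ℝ) + 1 / 16)) := by
  have hR2 : (2 : ℝ) ≤ R := by exact_mod_cast hR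
  have hR0 : (0 : ℝ) < R := by linarith
  have hT : (0 : ℝ) ≤ (R : ℝ) ^ (1 / 16 : ℝ) := by positivity
  intro α hα
  rw [mem_PP] at hp
  rw [mem_Mj, abs_le] at hα
  have hq0 : (0 : ℝ) < p.1 := by exact_mod_cast hp.1.1
  have hinv := inv_ge1 hk hR hp.1.1 ((Nat.le_floor_iff hT).1 hp.1.2)
  have h1 : 1 / (p.1 : ℝ) ≤ (p.2 : ℝ) / p.1 := by
    have : (1 : ℝ) ≤ p.2 := by exact_mod_cast hp.2.1.1
    gcongr
  have h2 : (p.2 : ℝ) / p.1 ≤ 1 := by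
    rw [div_le_one hq0]; exact_mod_cast hp.2.1.2
  constructor <;> linarith

lemma Mj_disj : Set.Pairwise (PP ⌊(R : ℝ) ^ (1 / 16 : ℝ)⌋₊ : Set (Σ _ : ℕ, ℕ))
    (Function.onFun Disjoint (Mj ((R : ℝ) ^ (-(k : ℝ) + 1 / 16)))) := by
  have hR2 : (2 : ℝ) ≤ R := by exact_mod_cast hR
  have hR0 : (0 : ℝ) < R := by linarith
  have hT : (0 : ℝ) ≤ (R : ℝ) ^ (1 / 16 : ℝ) := by positivity
  intro p hp p' hp' hne
  rw [Function.onFun, Set.disjoint_left]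
  intro α hα hα'
  rw [Finset.mem_coe, mem_PP] at hp hp'
  rw [mem_Mj] at hα hα'
  have hq0 : (0 : ℝ) < p.1 := by exact_mod_cast hp.1.1
  have hq0' : (0 : ℝ) < p'.1 := by exact_mod_cast hp'.1.1
  have hinv := inv_ge hk hR hp.1.1 ((Nat.le_floor_iff hT).1 hp.1.2) hp'.1.1
    ((Nat.le_floor_iff hT).1 hp'.1.2)
  have h1 : |(p.2 : ℝ) / p.1 - (p'.2 : ℝ) / p'.1| ≤ 2 * (R : ℝ) ^ (-(k : ℝ) + 1 / 16) := by
    have : (p.2 : ℝ) / p.1 - (p'.2 : ℝ) / p'.1 = (α - (p'.2 : ℝ) / p'.1) - (α - (p.2 : ℝ) / p.1) := by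
      ring
    rw [this]
    refine (abs_sub _ _).trans ?_
    linarith
  have h2 : (p.2 : ℝ) / p.1 - (p'.2 : ℝ) / p'.1 =
      (((p.2 : ℤ) * p'.1 - p'.2 * p.1 : ℤ) : ℝ) / ((p.1 : ℝ) * p'.1) := by
    push_cast; field_simp
  have h3 : ((p.2 : ℤ) * p'.1 - p'.2 * p.1 : ℤ) = 0 := by
    by_contra hz
    have h4 : (1 : ℝ) ≤ |(((p.2 : ℤ) * p'.1 - p'.2 * p.1 : ℤ) : ℝ)| := by
      rw [← Int.cast_abs]
      exact_mod_cast Int.one_le_abs hz
    rw [h2, abs_div, abs_of_pos (mul_pos hq0 hq0')] at h1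
    have h5 : 1 / ((p.1 : ℝ) * p'.1) ≤ |(((p.2 : ℤ) * p'.1 - p'.2 * p.1 : ℤ) : ℝ)| / ((p.1 : ℝ) * p'.1) := by
      gcongr
    linarith
  have h6 : p.2 * p'.1 = p'.2 * p.1 := by
    have := sub_eq_zero.1 h3
    exact_mod_cast this
  have h7 : p.1 ∣ p'.1 := by
    have : p.1 ∣ p.2 * p'.1 := by rw [h6]; exact Dvd.intro_left _ rfl
    exact (Nat.Coprime.symm hp.2.2).dvd_of_dvd_mul_left this
  have h8 : p'.1 ∣ p.1 := by
    have : p'.1 ∣ p'.2 * p.1 := by rw [← h6]; exact Dvd.intro_left _ rfl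
    exact (Nat.Coprime.symm hp'.2.2).dvd_of_dvd_mul_left this
  have h9 : p.1 = p'.1 := Nat.dvd_antisymm h7 h8
  have h10 : p.2 = p'.2 := by
    rw [h9] at h6
    exact Nat.eq_of_mul_eq_mul_right hp'.1.1 h6
  apply hne
  rcases p with ⟨a, b⟩
  rcases p' with ⟨a', b'⟩
  simp only at h9 h10
  rw [h9, h10]

lemma split (d n : ℕ) :
    ∫ α in ((R : ℝ) ^ (-(k : ℝ) + 1 / 16))..(1 + (R : ℝ) ^ (-(k : ℝ) + 1 / 16)), FF k d R n α =
    (∫ α in mnr k R, FF k d R n α) + ∑ q ∈ Finset.Icc 1 ⌊(R : ℝ) ^ (1 / 16 : ℝ)⌋₊,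
      ∑ a ∈ (Finset.Icc 1 q).filter (fun a => Nat.Coprime a q),
        ∫ α in Mj ((R : ℝ) ^ (-(k : ℝ) + 1 / 16)) ⟨q, a⟩, FF k d R n α := by
  have hint : IntegrableOn (FF k d R n)
      (Set.Ioc ((R : ℝ) ^ (-(k : ℝ) + 1 / 16)) (1 + (R : ℝ) ^ (-(k : ℝ) + 1 / 16))) := by
    rw [← intervalIntegrable_iff_integrableOn_Ioc_of_le (by linarith)]
    exact (continuous_FF k d R n).intervalIntegrable _ _
  have hU : MeasurableSet (⋃ p ∈ PP ⌊(R : ℝ) ^ (1 / 16 : ℝ)⌋₊,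
      Mj ((R : ℝ) ^ (-(k : ℝ) + 1 / 16)) p) :=
    Finset.measurableSet_biUnion _ fun p _ => measurableSet_Icc
  rw [intervalIntegral.integral_of_le (by linarith), ← integral_inter_add_sdiff hU hint,
    ← mnr_eq hk hR, add_comm]
  congr 1
  rw [Set.inter_eq_self_of_subset_right (Set.iUnion₂_subset fun p hp => Mj_sub hk hR p hp),
    integral_biUnion_finset _ (fun p _ => measurableSet_Mj _ p) (Mj_disj hk hR)
      (fun p hp => hint.mono_set (Mj_sub hk hR p hp))]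
  unfold PP
  rw [Finset.sum_sigma]

lemma minor_bound {C : ℝ} (d n : ℕ) (hkd : k ≤ d) (hd : 2 ^ (k + 4) * (k + 1) ≤ d)
    (hC : ∀ (R : ℕ) (α ξ : ℝ), 1 ≤ R →
      (∀ q : ℕ, 1 ≤ q → (q : ℝ) ≤ (R : ℝ) ^ (1 / 16 : ℝ) → ∀ a : ℤ,
      (R : ℝ) ^ (-(k : ℝ) + 1 / 16) < |α - a / q|) →
      ‖fS k R α ξ‖ ≤ C * (R : ℝ) ^ (1 - 1 / (2 : ℝ) ^ (k + 4))) :
    ‖(∫ α in mnr k R, FF k d R n α) / (R : ℂ) ^ (d - k)‖ ≤
      |C| ^ d * (R : ℝ) ^ (-(1 / 8) : ℝ) := by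
  have hR2 : (2 : ℝ) ≤ R := by exact_mod_cast hR
  have hR0 : (0 : ℝ) < R := by linarith
  have hvol : volume (mnr k R) ≤ 1 := by
    have hsub : mnr k R ⊆ Set.Ioc ((R : ℝ) ^ (-(k : ℝ) + 1 / 16)) (1 + (R : ℝ) ^ (-(k : ℝ) + 1 / 16)) :=
      fun x hx => ⟨hx.1, hx.2.1⟩
    refine (measure_mono hsub).trans ?_
    rw [Real.volume_Ioc]
    simp
  have h1 : ‖∫ α in mnr k R, FF k d R n α‖ ≤
      (|C| * (R : ℝ) ^ (1 - 1 / (2 : ℝ) ^ (k + 4))) ^ d * (volume.real (mnr k R)) := by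
    refine norm_setIntegral_le_of_norm_le_const (hvol.trans_lt ENNReal.one_lt_top) ?_
    intro α hα
    unfold FF
    rw [norm_mul, norm_ee, one_mul, norm_pow]
    refine pow_le_pow_left₀ (norm_nonneg _) ?_ d
    refine (hC R α 0 (by omega) hα.2.2).trans ?_
    exact mul_le_mul_of_nonneg_right (le_abs_self C) (by positivity)
  have h2 : volume.real (mnr k R) ≤ 1 := by
    rw [measureReal_def]
    exact ENNReal.toReal_le_of_le_ofReal zero_le_one (by simpa using hvol)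
  have h3 : ‖∫ α in mnr k R, FF k d R n α‖ ≤ (|C| * (R : ℝ) ^ (1 - 1 / (2 : ℝ) ^ (k + 4))) ^ d :=
    h1.trans (mul_le_of_le_one_right (by positivity) h2)
  rw [norm_div, norm_pow, Complex.norm_natCast, div_le_iff₀ (by positivity)]
  refine h3.trans ?_
  rw [mul_pow, mul_assoc]
  refine mul_le_mul_of_nonneg_left ?_ (by positivity)
  rw [← Real.rpow_natCast, ← Real.rpow_mul hR0.le, ← Real.rpow_natCast (R : ℝ) (d - k),
    ← Real.rpow_add hR0]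
  refine Real.rpow_le_rpow_of_exponent_le (by linarith) ?_
  rw [Nat.cast_sub hkd]
  have h4 : (2 : ℝ) ^ (k + 4) * (k + 1) ≤ d := by exact_mod_cast hd
  have h5 : (k : ℝ) + 1 ≤ d / (2 : ℝ) ^ (k + 4) := by
    rw [le_div_iff₀ (by positivity)]; linarith
  have h6 : (1 - 1 / (2 : ℝ) ^ (k + 4)) * d = d - d / (2 : ℝ) ^ (k + 4) := by ring
  rw [h6]
  linarith

lemma arc_bound {C₁ C₂ : ℝ} (d n : ℕ) (hkd : k ≤ d) (hd : 2 * k + 1 ≤ d)
    (hC₁ : ∀ (R q : ℕ) (a b : ℤ) (B θ : ℝ), 1 ≤ R → 1 ≤ q →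
    (q : ℝ) ≤ (R : ℝ) ^ (1 / 16 : ℝ) → |B| ≤ (R : ℝ) ^ (1 / 16 : ℝ) → |θ| ≤ 1 / (2 * q) →
    ‖(R : ℂ)⁻¹ * fS k R (a / q + B / (R : ℝ) ^ k) (b / q + θ) - GG k a q b * VV k B (R * θ)‖ ≤
      C₁ * (R : ℝ) ^ (-(1 / 4) : ℝ))
    (hC₂ : ∀ (q : ℕ) (a b : ℤ), 1 ≤ q → IsCoprime a (q : ℤ) →
      ‖GG k a q b‖ ≤ C₂ * (q : ℝ) ^ (-(1 / (k : ℝ)) + 1 / (4 * k)))
    (p : Σ _ : ℕ, ℕ) (hp : p ∈ PP ⌊(R : ℝ) ^ (1 / 16 : ℝ)⌋₊) :
    ‖(∫ α in Mj ((R : ℝ) ^ (-(k : ℝ) + 1 / 16)) p, FF k d R n α) / (R : ℂ) ^ (d - k) -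
      ((GG k p.2 p.1 0) ^ d * ee (-((p.2 : ℝ) * n / p.1))) *
        ∫ B in {B : ℝ | |B| ≤ (R : ℝ) ^ (1 / 16 : ℝ)},
          ee (-((n : ℝ) / (R : ℝ) ^ k * B)) * (VV k B 0) ^ d‖ ≤
      2 * d * (|C₁| + |C₂|) ^ (d - 1) * |C₁| * (p.1 : ℝ)⁻¹ * (R : ℝ) ^ (-(3 / 16) : ℝ) := by
  have hR2 : (2 : ℝ) ≤ R := by exact_mod_cast hR
  have hR0 : (0 : ℝ) < R := by linarith
  have hk3 : (3 : ℝ) ≤ k := by exact_mod_cast hk
  have hT : (0 : ℝ) ≤ (R : ℝ) ^ (1 / 16 : ℝ) := by positivity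
  obtain ⟨q, a⟩ := p
  rw [mem_PP] at hp
  simp only at hp ⊢
  obtain ⟨⟨hq1, hqQ⟩, ⟨ha1, haq⟩, hcop⟩ := hp
  have hqR : (q : ℝ) ≤ (R : ℝ) ^ (1 / 16 : ℝ) := (Nat.le_floor_iff hT).1 hqQ
  have hq0 : (0 : ℝ) < q := by exact_mod_cast hq1
  have hq1' : (1 : ℝ) ≤ q := by exact_mod_cast hq1
  set T := (R : ℝ) ^ (1 / 16 : ℝ) with hTdef
  have hρ : (R : ℝ) ^ (-(k : ℝ) + 1 / 16) = T / (R : ℝ) ^ k := by
    rw [hTdef, ← Real.rpow_natCast (R : ℝ) k, ← Real.rpow_sub hR0]; congr 1; ring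
  have hset : {B : ℝ | |B| ≤ T} = Set.Icc (-T) T := by
    ext B; simp [abs_le]
  -- change of variables
  have hcv : ∫ α in Mj ((R : ℝ) ^ (-(k : ℝ) + 1 / 16)) ⟨q, a⟩, FF k d R n α =
      (((R : ℝ) ^ k)⁻¹ : ℝ) • ∫ B in (-T)..T, FF k d R n ((a : ℝ) / q + B / (R : ℝ) ^ k) := by
    rw [intervalIntegral.integral_comp_add_div (f := FF k d R n) (c := (R : ℝ) ^ k) (by positivity),
      smul_smul, inv_mul_cancel₀ (by positivity), one_smul]
    unfold Mj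
    rw [integral_Icc_eq_integral_Ioc, hρ, intervalIntegral.integral_of_le]
    · simp only
      rw [neg_div, ← sub_eq_add_neg]
    · have : 0 ≤ T / (R : ℝ) ^ k := by positivity
      rw [neg_div]; linarith
  rw [hcv, hset, integral_Icc_eq_integral_Ioc, ← intervalIntegral.integral_of_le (by linarith)]
  have hconv : ((((R : ℝ) ^ k)⁻¹ : ℝ) • ∫ B in (-T)..T, FF k d R n ((a : ℝ) / q + B / (R : ℝ) ^ k)) /
      (R : ℂ) ^ (d - k) = ∫ B in (-T)..T, (ee (-((a : ℝ) * n / q)) *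
        ee (-((n : ℝ) / (R : ℝ) ^ k * B))) *
        ((R : ℂ)⁻¹ * fS k R ((a : ℝ) / q + B / (R : ℝ) ^ k) 0) ^ d := by
    rw [Complex.real_smul, div_eq_mul_inv, mul_right_comm, ← intervalIntegral.integral_const_mul]
    refine intervalIntegral.integral_congr fun B _ => ?_
    unfold FF
    rw [mul_pow, ← ee_add]
    have h1 : -((n : ℝ) * ((a : ℝ) / q + B / (R : ℝ) ^ k)) =
        -((a : ℝ) * n / q) + -((n : ℝ) / (R : ℝ) ^ k * B) := by
      field_simp; ring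
    rw [h1]
    have h2 : ((((R : ℝ) ^ k)⁻¹ : ℝ) : ℂ) * ((R : ℂ) ^ (d - k))⁻¹ = ((R : ℂ)⁻¹) ^ d := by
      push_cast
      rw [← mul_inv, ← pow_add, inv_pow]
      congr 2; omega
    rw [h2]
    ring
  have hconv2 : ((GG k (a : ℤ) q 0) ^ d * ee (-((a : ℝ) * n / q))) *
        (∫ B in (-T)..T, ee (-((n : ℝ) / (R : ℝ) ^ k * B)) * (VV k B 0) ^ d) =
      ∫ B in (-T)..T, (ee (-((a : ℝ) * n / q)) *
        ee (-((n : ℝ) / (R : ℝ) ^ k * B))) * (GG k (a : ℤ) q 0 * VV k B 0) ^ d := by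
    rw [← intervalIntegral.integral_const_mul]
    refine intervalIntegral.integral_congr fun B _ => ?_
    rw [mul_pow]; ring
  have hcVV : Continuous (fun B => VV k B 0) := by
    unfold VV
    refine intervalIntegral.continuous_parametric_intervalIntegral_of_continuous' ?_ _ _
    exact continuous_ee.comp (by fun_prop)
  rw [hconv, hconv2, ← intervalIntegral.integral_sub]
  rotate_left
  · refine Continuous.intervalIntegrable ?_ _ _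
    refine ((continuous_const).mul (continuous_ee.comp (by fun_prop))).mul
      ((continuous_const.mul ((continuous_fS k R).comp (by fun_prop))).pow d)
  · refine Continuous.intervalIntegrable ?_ _ _
    refine ((continuous_const).mul (continuous_ee.comp (by fun_prop))).mul
      ((continuous_const.mul hcVV).pow d)
  have hco : IsCoprime (a : ℤ) (q : ℤ) := Nat.isCoprime_iff_coprime.2 hcop
  set A := (q : ℝ) ^ (-(3 / (4 * k)) : ℝ) with hA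
  have hAexp : (-(1 / (k : ℝ)) + 1 / (4 * k)) = (-(3 / (4 * k)) : ℝ) := by
    field_simp; norm_num
  have hApos : 0 < A := by positivity
  have hRA : (R : ℝ) ^ (-(1 / 4) : ℝ) ≤ A := by
    rw [hA, Real.rpow_neg hR0.le, Real.rpow_neg hq0.le]
    refine inv_anti₀ (by positivity) ?_
    calc (q : ℝ) ^ (3 / (4 * k) : ℝ) ≤ T ^ (3 / (4 * k) : ℝ) :=
          Real.rpow_le_rpow hq0.le hqR (by positivity)
      _ = (R : ℝ) ^ ((1 / 16) * (3 / (4 * k)) : ℝ) := by rw [hTdef, ← Real.rpow_mul hR0.le]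
      _ ≤ (R : ℝ) ^ (1 / 4 : ℝ) := by
          refine Real.rpow_le_rpow_of_exponent_le (by linarith) ?_
          have : (3 / (4 * k) : ℝ) ≤ 1 := by
            rw [div_le_one (by positivity)]; linarith
          linarith
  have hAd : A ^ (d - 1) ≤ (q : ℝ)⁻¹ := by
    rw [hA, ← Real.rpow_natCast, ← Real.rpow_mul hq0.le, ← Real.rpow_neg_one]
    refine Real.rpow_le_rpow_of_exponent_le hq1' ?_
    rw [Nat.cast_sub (by omega)]
    have h4 : (2 * k + 1 : ℝ) ≤ d := by exact_mod_cast hd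
    have h5 : 1 ≤ 3 / (4 * (k : ℝ)) * ((d : ℝ) - 1) := by
      rw [div_mul_eq_mul_div, le_div_iff₀ (by positivity)]; nlinarith
    push_cast
    linarith
  have hpt : ∀ B ∈ Set.uIoc (-T) T, ‖(ee (-((a : ℝ) * n / q)) *
        ee (-((n : ℝ) / (R : ℝ) ^ k * B))) *
        ((R : ℂ)⁻¹ * fS k R ((a : ℝ) / q + B / (R : ℝ) ^ k) 0) ^ d -
        (ee (-((a : ℝ) * n / q)) *
        ee (-((n : ℝ) / (R : ℝ) ^ k * B))) * (GG k (a : ℤ) q 0 * VV k B 0) ^ d‖ ≤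
      d * ((|C₁| + |C₂|) * A) ^ (d - 1) * (|C₁| * (R : ℝ) ^ (-(1 / 4) : ℝ)) := by
    intro B hB
    rw [Set.uIoc_of_le (by linarith), Set.mem_Ioc] at hB
    have hB' : |B| ≤ T := abs_le.2 ⟨hB.1.le, hB.2⟩
    rw [← mul_sub, norm_mul, norm_mul, norm_ee, norm_ee, one_mul, one_mul]
    have hd1 := hC₁ R q a 0 B 0 (by omega) hq1 hqR hB' (by rw [abs_zero]; positivity)
    have e1 : (((0 : ℤ) : ℝ) / q + 0) = 0 := by simp
    have e2 : (R : ℝ) * 0 = 0 := by simp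
    rw [e1, e2] at hd1
    push_cast at hd1
    have hv : ‖GG k (a : ℤ) q 0 * VV k B 0‖ ≤ |C₂| * A := by
      rw [norm_mul]
      have h1 := hC₂ q a 0 hq1 hco
      rw [hAexp] at h1
      calc ‖GG k (a : ℤ) q 0‖ * ‖VV k B 0‖ ≤ (C₂ * A) * 1 :=
            mul_le_mul h1 (norm_VV_le k B) (norm_nonneg _) ((norm_nonneg _).trans h1)
        _ ≤ |C₂| * A := by
            rw [mul_one]; exact mul_le_mul_of_nonneg_right (le_abs_self _) hApos.le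
    have hd2 : ‖(R : ℂ)⁻¹ * fS k R ((a : ℝ) / q + B / (R : ℝ) ^ k) 0 -
        GG k (a : ℤ) q 0 * VV k B 0‖ ≤ |C₁| * (R : ℝ) ^ (-(1 / 4) : ℝ) := by
      refine hd1.trans ?_
      exact mul_le_mul_of_nonneg_right (le_abs_self _) (by positivity)
    refine pow_sub_le d ?_ ?_ hd2
    · calc ‖(R : ℂ)⁻¹ * fS k R ((a : ℝ) / q + B / (R : ℝ) ^ k) 0‖
          = ‖((R : ℂ)⁻¹ * fS k R ((a : ℝ) / q + B / (R : ℝ) ^ k) 0 -
              GG k (a : ℤ) q 0 * VV k B 0) + GG k (a : ℤ) q 0 * VV k B 0‖ := by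
            rw [sub_add_cancel]
        _ ≤ |C₁| * (R : ℝ) ^ (-(1 / 4) : ℝ) + |C₂| * A :=
            (norm_add_le _ _).trans (add_le_add hd2 hv)
        _ ≤ |C₁| * A + |C₂| * A := by gcongr
        _ = (|C₁| + |C₂|) * A := by ring
    · refine hv.trans ?_
      have : 0 ≤ |C₁| * A := by positivity
      linarith
  refine (intervalIntegral.norm_integral_le_of_norm_le_const hpt).trans ?_
  have hTT : |T - -T| = 2 * T := by
    rw [abs_of_nonneg (by linarith)]; ring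
  rw [hTT, mul_pow]
  have hTR : (R : ℝ) ^ (-(1 / 4) : ℝ) * T = (R : ℝ) ^ (-(3 / 16) : ℝ) := by
    rw [hTdef, ← Real.rpow_add hR0]; norm_num
  calc d * ((|C₁| + |C₂|) ^ (d - 1) * A ^ (d - 1)) * (|C₁| * (R : ℝ) ^ (-(1 / 4) : ℝ)) * (2 * T)
      = 2 * d * (|C₁| + |C₂|) ^ (d - 1) * |C₁| * A ^ (d - 1) * ((R : ℝ) ^ (-(1 / 4) : ℝ) * T) := by
        ring
    _ ≤ 2 * d * (|C₁| + |C₂|) ^ (d - 1) * |C₁| * (q : ℝ)⁻¹ * (R : ℝ) ^ (-(3 / 16) : ℝ) := by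
        rw [hTR]; gcongr

end params

theorem thm : G_MIN1 → G_RS → G_V1 → G_GB → G_MAJ := by
  intro hMIN hRS _ hGB k hk
  obtain ⟨C₀, hC₀⟩ := hMIN k (by omega)
  obtain ⟨C₁, hC₁⟩ := hRS k (by omega)
  obtain ⟨C₂, hC₂⟩ := hGB k (1 / (4 * k)) hk (by
    have : (0 : ℝ) < k := by exact_mod_cast (by omega : 0 < k)
    positivity)
  refine ⟨2 * k + 1 + 2 ^ (k + 4) * (k + 1), fun d hd => ?_⟩
  refine ⟨|C₀| ^ d + 2 * d * (|C₁| + |C₂|) ^ (d - 1) * |C₁|, fun R n hR hn => ?_⟩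
  have hR2 : (2 : ℝ) ≤ R := by exact_mod_cast hR
  have hR0 : (0 : ℝ) < R := by linarith
  have hT : (0 : ℝ) ≤ (R : ℝ) ^ (1 / 16 : ℝ) := by positivity
  rw [orthog k d R n (by omega) hn ((R : ℝ) ^ (-(k : ℝ) + 1 / 16)), split hk hR d n, add_div,
    Finset.sum_div, add_sub_assoc, Finset.sum_mul, ← Finset.sum_sub_distrib]
  refine (norm_add_le _ _).trans ?_
  rw [add_mul]
  refine add_le_add (minor_bound hk hR d n (by omega) (by omega) hC₀) ?_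
  refine (norm_sum_le _ _).trans ?_
  set K := 2 * d * (|C₁| + |C₂|) ^ (d - 1) * |C₁| with hK
  have hKn : 0 ≤ K := by positivity
  have hq : ∀ q ∈ Finset.Icc 1 ⌊(R : ℝ) ^ (1 / 16 : ℝ)⌋₊,
      ‖(∑ a ∈ (Finset.Icc 1 q).filter (fun a => Nat.Coprime a q),
        ∫ α in Mj ((R : ℝ) ^ (-(k : ℝ) + 1 / 16)) ⟨q, a⟩, FF k d R n α) / (R : ℂ) ^ (d - k) -
        As k d q n * ∫ B in {B : ℝ | |B| ≤ (R : ℝ) ^ (1 / 16 : ℝ)},
          ee (-((n : ℝ) / (R : ℝ) ^ k * B)) * (VV k B 0) ^ d‖ ≤ K * (R : ℝ) ^ (-(3 / 16) : ℝ) := by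
    intro q hq
    rw [Finset.mem_Icc] at hq
    have hq0 : (0 : ℝ) < q := by exact_mod_cast hq.1
    unfold As
    rw [Finset.sum_div, Finset.sum_mul, ← Finset.sum_sub_distrib]
    refine (norm_sum_le _ _).trans ?_
    calc _ ≤ ∑ a ∈ (Finset.Icc 1 q).filter (fun a => Nat.Coprime a q),
          K * (q : ℝ)⁻¹ * (R : ℝ) ^ (-(3 / 16) : ℝ) := by
          refine Finset.sum_le_sum fun a ha => ?_
          rw [Finset.mem_filter, Finset.mem_Icc] at ha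
          exact arc_bound hk hR d n (by omega) (by omega) hC₁ hC₂ ⟨q, a⟩
            ((mem_PP _ _).2 ⟨⟨hq.1, hq.2⟩, ha.1, ha.2⟩)
      _ ≤ (q : ℝ) * (K * (q : ℝ)⁻¹ * (R : ℝ) ^ (-(3 / 16) : ℝ)) := by
          rw [Finset.sum_const, nsmul_eq_mul]
          have hc : ((Finset.Icc 1 q).filter (fun a => Nat.Coprime a q)).card ≤ q := by
            refine (Finset.card_filter_le _ _).trans ?_
            simp
          have hc' : (((Finset.Icc 1 q).filter (fun a => Nat.Coprime a q)).card : ℝ) ≤ q := by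
            exact_mod_cast hc
          exact mul_le_mul_of_nonneg_right hc' (by positivity)
      _ = K * (R : ℝ) ^ (-(3 / 16) : ℝ) := by field_simp
  refine (Finset.sum_le_sum hq).trans ?_
  rw [Finset.sum_const, nsmul_eq_mul, Nat.card_Icc, Nat.add_sub_cancel]
  have hfl : ((⌊(R : ℝ) ^ (1 / 16 : ℝ)⌋₊ : ℕ) : ℝ) ≤ (R : ℝ) ^ (1 / 16 : ℝ) := Nat.floor_le hT
  calc ((⌊(R : ℝ) ^ (1 / 16 : ℝ)⌋₊ : ℕ) : ℝ) * (K * (R : ℝ) ^ (-(3 / 16) : ℝ))
      ≤ (R : ℝ) ^ (1 / 16 : ℝ) * (K * (R : ℝ) ^ (-(3 / 16) : ℝ)) :=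
        mul_le_mul_of_nonneg_right hfl (by positivity)
    _ = K * ((R : ℝ) ^ (1 / 16 : ℝ) * (R : ℝ) ^ (-(3 / 16) : ℝ)) := by ring
    _ = K * (R : ℝ) ^ (-(1 / 8) : ℝ) := by rw [← Real.rpow_add hR0]; norm_num

end Pool.Agent.Helper42.KS.PkMAJ
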